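import Mathlib

/-!
# Primes dividing every orbit of `x ^ 2 - 1`: local conditions

Every prime `p > 3` which divides a term of the orbit of every `n ≥ 2` under `x ↦ x ^ 2 - 1`
is `7, 17, 23` or `33` modulo `40`; if it is `1` modulo `4` then `1 + √2` is a square modulo `p`;
and the two cubics over `ℤ[ω]` whose roots are the points of period three have no root modulo `p`.
-/

namespace Pool.Agent.Results.MP_dd5d2d_nt.LocalConditions

/-- The orbit of `n` under `x ↦ x ^ 2 - 1`. -/
def orb (n : ℤ) : ℕ → ℤ
  | 0 => n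
  | k + 1 => orb n k ^ 2 - 1

/-- The primes which divide some term of the orbit of every starting value `n ≥ 2`. -/
def Q : Set ℕ := {p | p.Prime ∧ ∀ n : ℤ, 2 ≤ n → ∃ k, (p : ℤ) ∣ orb n k}

/-- The map `x ↦ x ^ 2 - 1` modulo `p`. -/
def step {p : ℕ} (x : ZMod p) : ZMod p := x ^ 2 - 1

lemma orb_cast {p : ℕ} (n : ℤ) (k : ℕ) : ((orb n k : ℤ) : ZMod p) = step^[k] (n : ZMod p) := by
  induction k with
  | zero => rfl
  | succ k ih =>
    rw [Function.iterate_succ_apply', ← ih, orb, step]
    push_cast
    rfl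

lemma reach {p : ℕ} (hp : p ∈ Q) (a : ZMod p) : ∃ k, step^[k] a = 0 := by
  have : Fact p.Prime := ⟨hp.1⟩
  have h2 : 2 ≤ ((a.val : ℤ) + 2 * p) := by
    have := hp.1.two_le
    have h0 : (0 : ℤ) ≤ (a.val : ℤ) := Int.natCast_nonneg _
    have : (2 : ℤ) ≤ (p : ℤ) := by exact_mod_cast this
    linarith
  obtain ⟨k, hk⟩ := hp.2 _ h2
  refine ⟨k, ?_⟩
  have h3 := orb_cast (p := p) ((a.val : ℤ) + 2 * p) k
  rw [(ZMod.intCast_zmod_eq_zero_iff_dvd _ p).2 hk] at h3
  have h4 : (((a.val : ℤ) + 2 * p : ℤ) : ZMod p) = a := by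
    push_cast
    simp
  rw [h4] at h3
  exact h3.symm

/-- A point of a set which is closed under taking preimages. -/
lemma back {p : ℕ} {S : Set (ZMod p)} (h0 : (0 : ZMod p) ∈ S)
    (hS : ∀ a, step a ∈ S → a ∈ S) (hp : p ∈ Q) (a : ZMod p) : a ∈ S := by
  obtain ⟨k, hk⟩ := reach hp a
  have : ∀ (k : ℕ) (b : ZMod p), step^[k] b = 0 → b ∈ S := by
    intro k
    induction k with
    | zero =>
      intro b hb
      have hb' : b = 0 := hb
      rw [hb']
      exact h0
    | succ k ih => intro b hb; exact hS b (ih _ (by simpa using hb))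
  exact this k a hk

lemma two_ne {p : ℕ} [Fact p.Prime] (h3 : 3 < p) : (2 : ZMod p) ≠ 0 := by
  intro h
  have := (ZMod.natCast_eq_zero_iff 2 p).1 (by exact_mod_cast h)
  have := Nat.le_of_dvd (by norm_num) this
  omega

lemma three_ne {p : ℕ} [Fact p.Prime] (h3 : 3 < p) : (3 : ZMod p) ≠ 0 := by
  intro h
  have := (ZMod.natCast_eq_zero_iff 3 p).1 (by exact_mod_cast h)
  have := Nat.le_of_dvd (by norm_num) this
  omega

lemma not_square_five {p : ℕ} (hp : p ∈ Q) (h3 : 3 < p) : ¬ IsSquare (5 : ZMod p) := by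
  have : Fact p.Prime := ⟨hp.1⟩
  have h2 := two_ne h3
  rintro ⟨r, hr⟩
  obtain ⟨k, hk⟩ := reach hp ((1 + r) / 2)
  have hfix : step ((1 + r) / 2) = (1 + r) / 2 := by
    unfold step
    field_simp
    linear_combination (-1 : ZMod p) * hr
  have : step^[k] ((1 + r) / 2) = (1 + r) / 2 := Function.iterate_fixed hfix k
  rw [this] at hk
  rw [hk] at hfix
  simp [step] at hfix

lemma square_two {p : ℕ} (hp : p ∈ Q) (h3 : 3 < p) : IsSquare (2 : ZMod p) := by
  have : Fact p.Prime := ⟨hp.1⟩
  have h2 := two_ne h3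
  have h3' := three_ne h3
  by_contra hns
  have key := back (S := {a : ZMod p | a = 0 ∨ a = 1 ∨ a = -1}) (Or.inl rfl) (by
    intro a ha
    simp only [Set.mem_ofPred_eq, step] at ha ⊢
    rcases ha with h | h | h
    · have : (a - 1) * (a + 1) = 0 := by linear_combination h
      rcases mul_eq_zero.1 this with h' | h'
      · exact Or.inr (Or.inl (by linear_combination h'))
      · exact Or.inr (Or.inr (by linear_combination h'))
    · exact absurd ⟨a, by linear_combination -h⟩ hns
    · have : a ^ 2 = 0 := by linear_combination h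
      exact Or.inl (pow_eq_zero_iff (two_ne_zero) |>.1 this)) hp 2
  simp only [Set.mem_ofPred_eq] at key
  rcases key with h | h | h
  · exact h2 h
  · have : (1 : ZMod p) = 0 := by linear_combination h
    exact one_ne_zero this
  · exact h3' (by linear_combination h)

lemma square_one_add {p : ℕ} (hp : p ∈ Q) (h3 : 3 < p) (h4 : p % 4 = 1) (s : ZMod p)
    (hs : s ^ 2 = 2) : IsSquare (1 + s) := by
  have : Fact p.Prime := ⟨hp.1⟩
  have h2 := two_ne h3
  have h3' := three_ne h3
  obtain ⟨i, hi⟩ := (ZMod.exists_sq_eq_neg_one_iff (p := p)).2 (by omega)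
  by_contra hns
  have hns' : ¬ IsSquare (1 - s) := by
    rintro ⟨b, hb⟩
    have hprod : (1 + s) * (1 - s) = -1 := by linear_combination -hs
    have hb0 : b ≠ 0 := by
      rintro rfl
      rw [hb] at hprod
      have : (1 : ZMod p) = 0 := by linear_combination hprod
      exact one_ne_zero this
    apply hns
    refine ⟨i / b, ?_⟩
    field_simp
    rw [hb] at hprod
    linear_combination hprod + hi
  have key := back (S := {a : ZMod p | a = 0 ∨ a = 1 ∨ a = -1 ∨ a = s ∨ a = -s}) (Or.inl rfl) (by
    intro a ha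
    simp only [Set.mem_ofPred_eq, step] at ha ⊢
    rcases ha with h | h | h | h | h
    · have : (a - 1) * (a + 1) = 0 := by linear_combination h
      rcases mul_eq_zero.1 this with h' | h'
      · exact Or.inr (Or.inl (by linear_combination h'))
      · exact Or.inr (Or.inr (Or.inl (by linear_combination h')))
    · have : (a - s) * (a + s) = 0 := by linear_combination h - hs
      rcases mul_eq_zero.1 this with h' | h'
      · exact Or.inr (Or.inr (Or.inr (Or.inl (by linear_combination h'))))
      · exact Or.inr (Or.inr (Or.inr (Or.inr (by linear_combination h'))))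
    · have : a ^ 2 = 0 := by linear_combination h
      exact Or.inl (pow_eq_zero_iff (two_ne_zero) |>.1 this)
    · exact absurd ⟨a, by linear_combination -h⟩ hns
    · exact absurd ⟨a, by linear_combination -h⟩ hns') hp 2
  simp only [Set.mem_ofPred_eq] at key
  rcases key with h | h | h | h | h
  · exact h2 h
  · have : (1 : ZMod p) = 0 := by linear_combination h
    exact one_ne_zero this
  · exact h3' (by linear_combination h)
  · rw [← h] at hs
    exact h2 (by linear_combination hs)
  · have : s = -2 := by linear_combination h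
    rw [this] at hs
    exact h2 (by linear_combination hs)

lemma no_three_cycle {p : ℕ} (hp : p ∈ Q) (w x : ZMod p) (hw : w ^ 2 + w + 1 = 0) :
    x ^ 3 - w * x ^ 2 - (w + 2) * x + w ≠ 0 := by
  have : Fact p.Prime := ⟨hp.1⟩
  intro hx
  have h3 : step^[3] x = x := by
    show step (step (step x)) = x
    unfold step
    have : x ^ 8 - 4 * x ^ 6 + 4 * x ^ 4 - x - 1
        = (x ^ 2 - x - 1) * ((x ^ 3 - w * x ^ 2 - (w + 2) * x + w)
          * (x ^ 3 - (-1 - w) * x ^ 2 - ((-1 - w) + 2) * x + (-1 - w))) := by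
      linear_combination (-(x ^ 2 - x - 1) * (-x ^ 4 - 2 * x ^ 3 + x ^ 2 + 2 * x - 1)) * hw
    rw [hx] at this
    linear_combination this
  obtain ⟨k, hk⟩ := reach hp x
  -- iterate `x` beyond `k` to a multiple of three
  have h3m : ∀ m : ℕ, step^[3 * m] x = x := by
    intro m
    induction m with
    | zero => rfl
    | succ m ih => rw [Nat.mul_succ, Function.iterate_add_apply, h3, ih]
  have hz : ∀ j : ℕ, step^[j] (0 : ZMod p) = 0 ∨ step^[j] (0 : ZMod p) = -1 := by
    intro j
    induction j with
    | zero => exact Or.inl rfl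
    | succ j ih =>
      rw [Function.iterate_succ_apply']
      rcases ih with h | h
      · right; rw [h]; simp [step]
      · left; rw [h]; simp [step]
  have hx' : x = 0 ∨ x = -1 := by
    have h := h3m k
    have : 3 * k = 2 * k + k := by ring
    rw [this, Function.iterate_add_apply, hk] at h
    rcases hz (2 * k) with h' | h'
    · left; rw [← h, h']
    · right; rw [← h, h']
  rcases hx' with h | h
  · rw [h] at h3
    have : step (step (step (0 : ZMod p))) = 0 := h3
    simp [step] at this
  · rw [h] at h3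
    have : step (step (step (-1 : ZMod p))) = -1 := h3
    simp [step] at this

theorem result : ∀ p ∈ Q, 3 < p →
    (p % 40 = 7 ∨ p % 40 = 17 ∨ p % 40 = 23 ∨ p % 40 = 33) ∧
    (p % 4 = 1 → ∀ s : ZMod p, s ^ 2 = 2 → IsSquare (1 + s)) ∧
    (∀ w x : ZMod p, w ^ 2 + w + 1 = 0 → x ^ 3 - w * x ^ 2 - (w + 2) * x + w ≠ 0) := by
  intro p hp h3
  have : Fact p.Prime := ⟨hp.1⟩
  refine ⟨?_, fun h4 s hs => square_one_add hp h3 h4 s hs, fun w x hw => no_three_cycle hp w x hw⟩
  have h8 := (ZMod.exists_sq_eq_two_iff (p := p) (by omega)).1 (square_two hp h3)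
  have h5 : p % 5 = 2 ∨ p % 5 = 3 := by
    have : Fact (Nat.Prime 5) := ⟨by norm_num⟩
    have hrec := ZMod.exists_sq_eq_prime_iff_of_mod_four_eq_one (p := 5) (q := p) (by norm_num)
      (by omega)
    have hns : ¬ IsSquare ((p : ℕ) : ZMod 5) := by
      intro h
      exact not_square_five hp h3 (by exact_mod_cast hrec.1 h)
    have hcast : ((p : ℕ) : ZMod 5) = ((p % 5 : ℕ) : ZMod 5) := by
      rw [ZMod.natCast_mod]
    have hlt : p % 5 < 5 := Nat.mod_lt _ (by norm_num)
    interval_cases h : p % 5
    · exact absurd (by rw [hcast]; exact ⟨0, by simp⟩) hns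
    · exact absurd (by rw [hcast]; exact ⟨1, by simp⟩) hns
    · left; rfl
    · right; rfl
    · exact absurd (by rw [hcast]; exact ⟨2, by norm_num⟩) hns
  omega

end Pool.Agent.Results.MP_dd5d2d_nt.LocalConditions
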